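import Mathlib
import Pool.Agent.Helper329.Sub.Chain

set_option autoImplicit false

open Finset Nat

namespace Pool.Agent.Y424.SB

open Pool.Agent.Helper329.Sub

/-- A finite set of pairs of natural numbers any two distinct members of which are strictly
comparable in both coordinates. -/
def StrictChain (C : Finset (ℕ × ℕ)) : Prop :=
  ∀ c ∈ C, ∀ d ∈ C, c = d ∨ (c.1 < d.1 ∧ c.2 < d.2) ∨ (d.1 < c.1 ∧ d.2 < c.2)

/-- The value of a set of pairs: the sum of the products of binomial coefficients. -/
def val (p q : ℕ) (C : Finset (ℕ × ℕ)) : ℕ := ∑ c ∈ C, p.choose c.1 * q.choose c.2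

variable {α : Type} [Fintype α] [DecidableEq α]

/-- The condition on the members of a chain. -/
def Inside (p q k : ℕ) (C : Finset (ℕ × ℕ)) : Prop :=
  ∀ c ∈ C, 1 ≤ c.1 ∧ c.1 ≤ p ∧ 1 ≤ c.2 ∧ c.2 ≤ q ∧ c.1 + c.2 ≤ k

/-- Zero sum sets of at most `k` elements: the bound by strict chains, with the case of
equality. -/
theorem card_le_of_chain (x : α → ℝ) (hx : ∀ i, x i ≠ 0) (k : ℕ)
    (F : Finset (Finset α)) (hF : ∀ A ∈ F, A.Nonempty ∧ A.card ≤ k ∧ ∑ i ∈ A, x i = 0) (G : ℕ)
    (hG : ∀ p q : ℕ, p + q = Fintype.card α → ∀ C : Finset (ℕ × ℕ), StrictChain C →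
      Inside p q k C → val p q C ≤ G) :
    F.card ≤ G ∧ (F.card = G → ∀ A ∈ F, ∃ C : Finset (ℕ × ℕ), StrictChain C ∧
      Inside (univ.filter (fun i => 0 < x i)).card (univ.filter (fun i => x i < 0)).card k C ∧
      val (univ.filter (fun i => 0 < x i)).card (univ.filter (fun i => x i < 0)).card C = G ∧
      ((A.filter (fun i => 0 < x i)).card, (A.filter (fun i => x i < 0)).card) ∈ C) := by
  classical
  have hpc : (univ.filter (fun i => 0 < x i)).card = Fintype.card (Pos x) := by
    rw [Fintype.card_subtype]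
  have hqc : (univ.filter (fun i => x i < 0)).card = Fintype.card (Neg x) := by
    rw [Fintype.card_subtype]
  rw [hpc, hqc]
  set p := Fintype.card (Pos x) with hp
  set q := Fintype.card (Neg x) with hq
  have hpq : p + q = Fintype.card α := card_Pos_add_card_Neg x hx
  have hcard := card_AP_add_card_AN x hx
  let T : Finset α → Finset (Numbering (Pos x) × Numbering (Neg x)) := fun A =>
    Numbering.prefixed (AP x A) ×ˢ Numbering.prefixed (AN x A)
  let ty : Finset α → ℕ × ℕ := fun A => ((AP x A).card, (AN x A).card)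
  let g : Finset α → ℕ := fun A => p.choose (ty A).1 * q.choose (ty A).2
  have key : ∀ A ∈ F, ∀ B ∈ F, ∀ fg, fg ∈ T A → fg ∈ T B → (ty A).1 ≤ (ty B).1 →
      (ty B).2 ≤ (ty A).2 → A = B := by
    intro A hA B hB fg h1 h2 hle hle2
    simp only [T, Finset.mem_product, Numbering.mem_prefixed] at h1 h2
    have s1 : AP x A ⊆ AP x B := h1.1.subset_of_card_le_card h2.1 hle
    have s2 : AN x B ⊆ AN x A := h2.2.subset_of_card_le_card h1.2 hle2
    apply eq_of_nested x hx (hF A hA).2.2 (hF B hB).2.2
    · intro i hi hiA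
      exact (mem_AP x B i hi).1 (s1 ((mem_AP x A i hi).2 hiA))
    · intro i hi hiB
      exact (mem_AN x A i hi).1 (s2 ((mem_AN x B i hi).2 hiB))
  have hty : ∀ A ∈ F, 1 ≤ (ty A).1 ∧ (ty A).1 ≤ p ∧ 1 ≤ (ty A).2 ∧ (ty A).2 ≤ q ∧
      (ty A).1 + (ty A).2 ≤ k := by
    intro A hA
    have e1 := hcard A
    have hjp : (AP x A).card ≤ p := Finset.card_le_univ _
    have hwq : (AN x A).card ≤ q := Finset.card_le_univ _
    have hne : A.Nonempty := (hF A hA).1
    have hj1 : 1 ≤ (AP x A).card := by
      by_contra hcon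
      have h0 : (AP x A).card = 0 := by omega
      rw [Finset.card_eq_zero] at h0
      have : ∑ i ∈ A, x i < 0 := by
        apply Finset.sum_neg _ hne
        intro i hi
        rcases lt_or_gt_of_ne (hx i) with h | h
        · exact h
        · exfalso
          have : (⟨i, h⟩ : Pos x) ∈ AP x A := (mem_AP x A i h).2 hi
          rw [h0] at this
          simp at this
      linarith [(hF A hA).2.2]
    have hw1 : 1 ≤ (AN x A).card := by
      by_contra hcon
      have h0 : (AN x A).card = 0 := by omega
      rw [Finset.card_eq_zero] at h0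
      have : 0 < ∑ i ∈ A, x i := by
        apply Finset.sum_pos _ hne
        intro i hi
        rcases lt_or_gt_of_ne (hx i) with h | h
        · exfalso
          have : (⟨i, h⟩ : Neg x) ∈ AN x A := (mem_AN x A i h).2 hi
          rw [h0] at this
          simp at this
        · exact h
      linarith [(hF A hA).2.2]
    refine ⟨hj1, hjp, hw1, hwq, ?_⟩
    show (AP x A).card + (AN x A).card ≤ k
    rw [e1]; exact (hF A hA).2.1
  have hterm : ∀ A ∈ F, p ! * q ! = g A * (T A).card := by
    intro A hA
    obtain ⟨_, hjp, _, hwq, _⟩ := hty A hA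
    have hT : (T A).card = ((AP x A).card ! * (p - (AP x A).card)!) *
        ((AN x A).card ! * (q - (AN x A).card)!) := by
      simp only [T, Finset.card_product, Numbering.card_prefixed]
      rfl
    rw [hT]
    have c1 := Nat.choose_mul_factorial_mul_factorial hjp
    have c2 := Nat.choose_mul_factorial_mul_factorial hwq
    show p ! * q ! = (p.choose (ty A).1 * q.choose (ty A).2) * _
    rw [← c1, ← c2]
    show _ = _ * (((ty A).1 ! * (p - (ty A).1)!) * ((ty A).2 ! * (q - (ty A).2)!))
    ring
  have hch : ∀ fg : Numbering (Pos x) × Numbering (Neg x),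
      StrictChain ((F.filter (fun A => fg ∈ T A)).image ty) ∧
      Inside p q k ((F.filter (fun A => fg ∈ T A)).image ty) ∧
      val p q ((F.filter (fun A => fg ∈ T A)).image ty) =
        ∑ A ∈ F.filter (fun A => fg ∈ T A), g A := by
    intro fg
    have hinj : Set.InjOn ty (F.filter (fun A => fg ∈ T A) : Finset (Finset α)) := by
      intro A hA B hB he
      rw [Finset.mem_coe, Finset.mem_filter] at hA hB
      exact key A hA.1 B hB.1 fg hA.2 hB.2 (by rw [he]) (by rw [he])
    refine ⟨?_, ?_, ?_⟩
    · intro c hc d hd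
      obtain ⟨A, hA, rfl⟩ := Finset.mem_image.1 hc
      obtain ⟨B, hB, rfl⟩ := Finset.mem_image.1 hd
      rw [Finset.mem_filter] at hA hB
      by_cases he : A = B
      · left; rw [he]
      · right
        have k1 := fun h1 h2 => he (key A hA.1 B hB.1 fg hA.2 hB.2 h1 h2)
        have k2 := fun h1 h2 => he (key B hB.1 A hA.1 fg hB.2 hA.2 h1 h2).symm
        rcases Nat.lt_or_ge (ty A).1 (ty B).1 with h | h
        · left
          refine ⟨h, ?_⟩
          by_contra hcon
          exact k1 h.le (not_lt.1 hcon)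
        · right
          have h2 : (ty B).2 < (ty A).2 := by
            by_contra hcon
            exact k2 h (not_lt.1 hcon)
          refine ⟨?_, h2⟩
          by_contra hcon
          exact k1 (not_lt.1 hcon) h2.le
    · intro c hc
      obtain ⟨A, hA, rfl⟩ := Finset.mem_image.1 hc
      exact hty A (Finset.mem_filter.1 hA).1
    · rw [val, Finset.sum_image hinj]
  have hfg : ∀ fg : Numbering (Pos x) × Numbering (Neg x),
      ∑ A ∈ F.filter (fun A => fg ∈ T A), g A ≤ G := by
    intro fg
    obtain ⟨c1, c2, c3⟩ := hch fg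
    rw [← c3]
    exact hG p q hpq _ c1 c2
  have hpos : 0 < p ! * q ! := Nat.mul_pos (Nat.factorial_pos _) (Nat.factorial_pos _)
  have hcount : F.card * (p ! * q !) = ∑ fg : Numbering (Pos x) × Numbering (Neg x),
      ∑ A ∈ F.filter (fun A => fg ∈ T A), g A := by
    calc F.card * (p ! * q !) = ∑ A ∈ F, p ! * q ! := by rw [Finset.sum_const, smul_eq_mul]
      _ = ∑ A ∈ F, g A * (T A).card := Finset.sum_congr rfl hterm
      _ = ∑ A ∈ F, ∑ fg : Numbering (Pos x) × Numbering (Neg x), if fg ∈ T A then g A else 0 := by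
          refine Finset.sum_congr rfl fun A _ => ?_
          rw [← Finset.sum_filter, Finset.sum_const, smul_eq_mul, mul_comm]
          congr 2
          ext fg
          simp
      _ = ∑ fg : Numbering (Pos x) × Numbering (Neg x), ∑ A ∈ F, if fg ∈ T A then g A else 0 :=
          Finset.sum_comm
      _ = _ := by
          refine Finset.sum_congr rfl fun fg _ => ?_
          rw [← Finset.sum_filter]
  have hconst : G * (p ! * q !) = ∑ _fg : Numbering (Pos x) × Numbering (Neg x), G := by
    rw [Finset.sum_const, smul_eq_mul, Finset.card_univ, Fintype.card_prod,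
      Fintype.card_numbering, Fintype.card_numbering]
    ring
  have hfin : F.card * (p ! * q !) ≤ G * (p ! * q !) := by
    rw [hcount, hconst]
    exact Finset.sum_le_sum fun fg _ => hfg fg
  refine ⟨Nat.le_of_mul_le_mul_right hfin hpos, ?_⟩
  intro heq A hA
  have hall : ∀ fg ∈ (univ : Finset (Numbering (Pos x) × Numbering (Neg x))),
      ∑ A ∈ F.filter (fun A => fg ∈ T A), g A = G := by
    rw [← Finset.sum_eq_sum_iff_of_le fun fg _ => hfg fg, ← hcount, ← hconst, heq]
  have hTne : (T A).Nonempty := by
    rw [← Finset.card_pos]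
    have := hterm A hA
    by_contra hcon
    have h0 : (T A).card = 0 := by omega
    rw [h0, Nat.mul_zero] at this
    omega
  obtain ⟨fg, hfgA⟩ := hTne
  obtain ⟨c1, c2, c3⟩ := hch fg
  refine ⟨_, c1, c2, c3.trans (hall fg (Finset.mem_univ _)), ?_⟩
  have e1 : ty A = ((A.filter (fun i => 0 < x i)).card, (A.filter (fun i => x i < 0)).card) := by
    show ((AP x A).card, (AN x A).card) = _
    simp only [AP, AN, Finset.card_subtype]
  rw [← e1]
  exact Finset.mem_image_of_mem _ (Finset.mem_filter.2 ⟨hA, hfgA⟩)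

end Pool.Agent.Y424.SB
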