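import Mathlib

set_option autoImplicit false

namespace Pool.Agent.Y424.SB

/-- real form of the recursion in the upper index -/
lemma choose_step (n k : ℕ) : (((n + 1).choose k : ℕ) : ℝ) * ((n : ℝ) + 1 - k) =
    ((n.choose k : ℕ) : ℝ) * ((n : ℝ) + 1) := by
  have h := Nat.choose_mul_succ_eq n k
  rcases le_or_gt k (n + 1) with h1 | h1
  · have h2 : ((n + 1 - k : ℕ) : ℝ) = (n : ℝ) + 1 - k := by
      rw [Nat.cast_sub h1]; push_cast; ring
    rw [← h2]
    exact_mod_cast h.symm
  · rw [Nat.choose_eq_zero_of_lt h1, Nat.choose_eq_zero_of_lt (by omega)]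
    simp

/-- shifting one element -/
lemma shift {j w p q : ℕ} (h : (q + 1) * j ≤ (p + 1) * w) :
    (p + 1).choose j * q.choose w ≤ p.choose j * (q + 1).choose w := by
  rcases lt_or_ge q w with hq | hq
  · rw [Nat.choose_eq_zero_of_lt hq]; simp
  rcases lt_or_ge (p + 1) j with hp | hp
  · rw [Nat.choose_eq_zero_of_lt hp]; simp
  have hj1 : j ≤ p := by
    by_contra hcon
    have e : j = p + 1 := by omega
    subst e
    have : (q + 1) * (p + 1) ≤ w * (p + 1) := by rw [Nat.mul_comm w]; exact h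
    have := Nat.le_of_mul_le_mul_right this (by omega)
    omega
  have a := choose_step p j
  have b := choose_step q w
  have hp1 : (0 : ℝ) < (p : ℝ) + 1 - j := by
    have : (j : ℝ) ≤ p := by exact_mod_cast hj1
    linarith
  have hq1 : (0 : ℝ) < (q : ℝ) + 1 - w := by
    have : (w : ℝ) ≤ q := by exact_mod_cast hq
    linarith
  have h' : ((q : ℝ) + 1) * j ≤ (p + 1) * w := by exact_mod_cast h
  have key : (((p + 1).choose j : ℕ) : ℝ) * ((q.choose w : ℕ) : ℝ) ≤
      ((p.choose j : ℕ) : ℝ) * (((q + 1).choose w : ℕ) : ℝ) := by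
    have hX : (0 : ℝ) ≤ ((p.choose j : ℕ) : ℝ) * ((q.choose w : ℕ) : ℝ) := by positivity
    have e1 : (((p + 1).choose j : ℕ) : ℝ) * ((q.choose w : ℕ) : ℝ) *
        (((p : ℝ) + 1 - j) * ((q : ℝ) + 1 - w)) =
        ((p.choose j : ℕ) : ℝ) * ((q.choose w : ℕ) : ℝ) * (((p : ℝ) + 1) * ((q : ℝ) + 1 - w)) := by
      linear_combination (((q.choose w : ℕ) : ℝ) * ((q : ℝ) + 1 - w)) * a
    have e2 : ((p.choose j : ℕ) : ℝ) * (((q + 1).choose w : ℕ) : ℝ) *
        (((p : ℝ) + 1 - j) * ((q : ℝ) + 1 - w)) =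
        ((p.choose j : ℕ) : ℝ) * ((q.choose w : ℕ) : ℝ) * (((q : ℝ) + 1) * ((p : ℝ) + 1 - j)) := by
      linear_combination (((p.choose j : ℕ) : ℝ) * ((p : ℝ) + 1 - j)) * b
    have hle : ((p : ℝ) + 1) * ((q : ℝ) + 1 - w) ≤ ((q : ℝ) + 1) * ((p : ℝ) + 1 - j) := by
      nlinarith
    have := mul_le_mul_of_nonneg_left hle hX
    rw [← e1, ← e2] at this
    exact le_of_mul_le_mul_right this (mul_pos hp1 hq1)
  exact_mod_cast key

/-- the balanced point, moving down -/
lemma balanced_right (z j w : ℕ) : ∀ d q : ℕ, q + d = z * w →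
    (z * j + d).choose j * q.choose w ≤ (z * j).choose j * (z * w).choose w := by
  intro d
  induction d with
  | zero =>
    intro q hq
    have : q = z * w := by omega
    rw [this]
    exact le_of_eq (by rw [Nat.add_zero])
  | succ d ih =>
    intro q hq
    refine le_trans ?_ (ih (q + 1) (by omega))
    rw [← Nat.add_assoc]
    apply shift
    calc (q + 1) * j ≤ (z * w) * j := Nat.mul_le_mul_right _ (by omega)
      _ = (z * j) * w := by ring
      _ ≤ (z * j + d + 1) * w := Nat.mul_le_mul_right _ (by omega)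

/-- at `n = z k` the balanced choice is optimal -/
lemma balanced {z j w p q : ℕ} (h : p + q = z * (j + w)) :
    p.choose j * q.choose w ≤ (z * j).choose j * (z * w).choose w := by
  have hz : z * (j + w) = z * j + z * w := by ring
  rcases le_total (z * j) p with h1 | h1
  · obtain ⟨d, rfl⟩ := Nat.exists_eq_add_of_le h1
    exact balanced_right z j w d q (by omega)
  · have h2 : z * w ≤ q := by omega
    obtain ⟨d, rfl⟩ := Nat.exists_eq_add_of_le h2
    rw [Nat.mul_comm (p.choose j), Nat.mul_comm ((z * j).choose j)]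
    exact balanced_right z w j d p (by omega)

/-- one step: removing an element from the relatively larger part -/
lemma down {j w p q D Z : ℕ} (hj : q * j ≤ (p + 1) * w) (hp : j + w ≤ p + q) (hjp : j ≤ p)
    (ih : p.choose j * q.choose w * Z ≤ D * (p + q).choose (j + w)) :
    (p + 1).choose j * q.choose w * Z ≤ D * (p + 1 + q).choose (j + w) := by
  have a := choose_step p j
  have b := choose_step (p + q) (j + w)
  rw [show p + 1 + q = p + q + 1 by ring]
  have hp1 : (0 : ℝ) < (p : ℝ) + 1 - j := by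
    have : (j : ℝ) ≤ p := by exact_mod_cast hjp
    linarith
  have hn1 : (0 : ℝ) < ((p + q : ℕ) : ℝ) + 1 - ((j + w : ℕ) : ℝ) := by
    have : ((j + w : ℕ) : ℝ) ≤ ((p + q : ℕ) : ℝ) := by exact_mod_cast hp
    linarith
  have h' : (q : ℝ) * j ≤ (p + 1) * w := by exact_mod_cast hj
  have ih' : ((p.choose j : ℕ) : ℝ) * ((q.choose w : ℕ) : ℝ) * (Z : ℝ) ≤
      (D : ℝ) * (((p + q).choose (j + w) : ℕ) : ℝ) := by exact_mod_cast ih
  have key : (((p + 1).choose j : ℕ) : ℝ) * ((q.choose w : ℕ) : ℝ) * (Z : ℝ) ≤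
      (D : ℝ) * (((p + q + 1).choose (j + w) : ℕ) : ℝ) := by
    set A := (((p + 1).choose j : ℕ) : ℝ)
    set A0 := ((p.choose j : ℕ) : ℝ)
    set B := ((q.choose w : ℕ) : ℝ)
    set Cn := (((p + q + 1).choose (j + w) : ℕ) : ℝ)
    set C0 := (((p + q).choose (j + w) : ℕ) : ℝ)
    have hC0 : 0 ≤ (D : ℝ) * C0 := by positivity
    have e1 : A * B * Z * (((p : ℝ) + 1 - j) * (((p + q : ℕ) : ℝ) + 1 - ((j + w : ℕ) : ℝ))) =
        (A0 * B * Z) * (((p : ℝ) + 1) * (((p + q : ℕ) : ℝ) + 1 - ((j + w : ℕ) : ℝ))) := by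
      linear_combination (B * Z * (((p + q : ℕ) : ℝ) + 1 - ((j + w : ℕ) : ℝ))) * a
    have e2 : (D : ℝ) * Cn * (((p : ℝ) + 1 - j) * (((p + q : ℕ) : ℝ) + 1 - ((j + w : ℕ) : ℝ))) =
        (D * C0) * ((((p + q : ℕ) : ℝ) + 1) * ((p : ℝ) + 1 - j)) := by
      linear_combination (D * ((p : ℝ) + 1 - j)) * b
    have hle : ((p : ℝ) + 1) * (((p + q : ℕ) : ℝ) + 1 - ((j + w : ℕ) : ℝ)) ≤
        (((p + q : ℕ) : ℝ) + 1) * ((p : ℝ) + 1 - j) := by
      push_cast
      nlinarith
    have t1 : (A0 * B * Z) * (((p : ℝ) + 1) * (((p + q : ℕ) : ℝ) + 1 - ((j + w : ℕ) : ℝ))) ≤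
        (D * C0) * (((p : ℝ) + 1) * (((p + q : ℕ) : ℝ) + 1 - ((j + w : ℕ) : ℝ))) :=
      mul_le_mul_of_nonneg_right ih' (by positivity)
    have t2 := mul_le_mul_of_nonneg_left hle hC0
    have := t1.trans t2
    rw [← e1, ← e2] at this
    exact le_of_mul_le_mul_right this (mul_pos hp1 hn1)
  exact_mod_cast key

/-- **Hypergeometric probabilities.** For `p + q ≥ z (j + w)` the probability is at most the one at
`p = z j`, `q = z w`. -/
theorem hyp_le {z j w : ℕ} (hz : 1 ≤ z) (hj : 1 ≤ j) (hw : 1 ≤ w) : ∀ t p q : ℕ, p + q = z * (j + w) + t →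
    p.choose j * q.choose w * (z * (j + w)).choose (j + w) ≤
      (z * j).choose j * (z * w).choose w * (p + q).choose (j + w) := by
  intro t
  induction t with
  | zero =>
    intro p q h
    rw [h, Nat.add_zero]
    exact Nat.mul_le_mul_right _ (balanced (by omega))
  | succ t ih =>
    intro p q h
    have hk : j + w ≤ z * (j + w) := Nat.le_mul_of_pos_left _ hz
    rcases lt_or_ge p j with hpj | hpj
    · rw [Nat.choose_eq_zero_of_lt hpj]; simp
    rcases lt_or_ge q w with hqw | hqw
    · rw [Nat.choose_eq_zero_of_lt hqw]; simp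
    rcases le_total (q * j) (p * w) with h1 | h1
    · -- remove from `p`
      have hp0 : j < p := by
        by_contra hcon
        have e : p = j := by omega
        subst e
        have : q ≤ w := by
          have : q * p ≤ w * p := by rw [Nat.mul_comm w]; exact h1
          exact Nat.le_of_mul_le_mul_right this hj
        omega
      obtain ⟨p', rfl⟩ : ∃ p', p = p' + 1 := ⟨p - 1, by omega⟩
      exact down h1 (by omega) (by omega) (ih p' q (by omega))
    · have hq0 : w < q := by
        by_contra hcon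
        have e : q = w := by omega
        subst e
        have : p ≤ j := by
          have : p * q ≤ j * q := by rw [Nat.mul_comm j]; exact h1
          exact Nat.le_of_mul_le_mul_right this hw
        omega
      obtain ⟨q', rfl⟩ : ∃ q', q = q' + 1 := ⟨q - 1, by omega⟩
      have := down (j := w) (w := j) (p := q') (q := p) (D := (z * j).choose j * (z * w).choose w)
        (Z := (z * (j + w)).choose (j + w)) h1 (by omega) (by omega) (by
          have := ih p q' (by omega)
          rw [Nat.mul_comm (q'.choose w), Nat.add_comm q' p, Nat.add_comm w j]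
          exact this)
      rw [Nat.mul_comm (p.choose j), Nat.add_comm p, Nat.add_comm j w] at *
      exact this

end Pool.Agent.Y424.SB
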