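import Mathlib
import Pool.Agent.Y424.SB.Hyp
import Pool.Agent.Helper329.Sub.Num2

set_option autoImplicit false

open Finset Nat

namespace Pool.Agent.Y424.SB

open Pool.Agent.Helper329.Sub

/-! ### the target -/

lemma target_aux {z K : ℕ} (hz : 2 ≤ z) (hK : 1 ≤ K) : ∀ r : ℕ, r ≤ K →
    (((z * K).choose K : ℕ) : ℝ) * (((z * (K + 1) + r).choose (K + 1) : ℕ) : ℝ) *
      (1 - (r : ℝ) * (r + 1) / (2 * z * (z - 1) * K * (K + 1))) ≤
    (((z * K + r).choose K : ℕ) : ℝ) * (((z * (K + 1)).choose (K + 1) : ℕ) : ℝ) := by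
  have hz' : (2 : ℝ) ≤ z := by exact_mod_cast hz
  have hK' : (1 : ℝ) ≤ K := by exact_mod_cast hK
  intro r
  induction r with
  | zero =>
    intro _
    simp
  | succ r ih =>
    intro hr
    have h0 := ih (by omega)
    have a := choose_step (z * K + r) K
    have b := choose_step (z * (K + 1) + r) (K + 1)
    rw [show z * K + (r + 1) = z * K + r + 1 by ring,
      show z * (K + 1) + (r + 1) = z * (K + 1) + r + 1 by ring]
    have hrK : (r : ℝ) + 1 ≤ K := by exact_mod_cast hr
    have hr0 : (0 : ℝ) ≤ r := by positivity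
    set A0 := (((z * K).choose K : ℕ) : ℝ)
    set N0 := (((z * (K + 1)).choose (K + 1) : ℕ) : ℝ)
    set Ar := (((z * K + r).choose K : ℕ) : ℝ)
    set Nr := (((z * (K + 1) + r).choose (K + 1) : ℕ) : ℝ)
    set As := (((z * K + r + 1).choose K : ℕ) : ℝ)
    set Ns := (((z * (K + 1) + r + 1).choose (K + 1) : ℕ) : ℝ)
    push_cast at a b ⊢
    have hA0 : 0 ≤ A0 := by positivity
    have hN0 : 0 ≤ N0 := by positivity
    have hNs : 0 ≤ Ns := by positivity
    generalize hzz : (z : ℝ) = Z at *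
    generalize (K : ℝ) = k at *
    generalize (r : ℝ) = R at *
    have hk0 : 0 < k := by linarith
    have hZ1 : 1 ≤ Z - 1 := by linarith
    have p1 : 0 < Z * k + R + 1 - k := by nlinarith
    have p2 : 0 < Z * (k + 1) + R + 1 := by positivity
    set E := 2 * Z * (Z - 1) * k * (k + 1) with hE
    have hEp : 0 < E := by
      have : 0 < Z - 1 := by linarith
      positivity
    -- the two factors
    have hAs : As = Ar * (Z * k + R + 1) / (Z * k + R + 1 - k) := by
      rw [eq_div_iff p1.ne']; linear_combination a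
    have hNr : Nr = Ns * (Z * (k + 1) + R + 1 - (k + 1)) / (Z * (k + 1) + R + 1) := by
      rw [eq_div_iff p2.ne']; linear_combination -b
    have f1 : 0 ≤ (Z * k + R + 1) / (Z * k + R + 1 - k) := by positivity
    have s1 : A0 * Nr * (1 - R * (R + 1) / E) * ((Z * k + R + 1) / (Z * k + R + 1 - k)) ≤ As * N0 := by
      have := mul_le_mul_of_nonneg_right h0 f1
      refine this.trans (le_of_eq ?_)
      rw [hAs]; ring
    refine le_trans ?_ s1
    rw [hNr]
    have e1 : A0 * (Ns * (Z * (k + 1) + R + 1 - (k + 1)) / (Z * (k + 1) + R + 1)) *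
        (1 - R * (R + 1) / E) * ((Z * k + R + 1) / (Z * k + R + 1 - k)) =
        (A0 * Ns) * ((1 - R * (R + 1) / E) *
          (1 - (R + 1) / ((Z * k + R + 1 - k) * (Z * (k + 1) + R + 1)))) := by
      have : 1 - (R + 1) / ((Z * k + R + 1 - k) * (Z * (k + 1) + R + 1)) =
          (Z * (k + 1) + R + 1 - (k + 1)) * (Z * k + R + 1) /
            ((Z * k + R + 1 - k) * (Z * (k + 1) + R + 1)) := by
        field_simp
        ring
      rw [this]
      field_simp
    rw [e1]
    apply mul_le_mul_of_nonneg_left _ (by positivity)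
    have g1 : (R + 1) / ((Z * k + R + 1 - k) * (Z * (k + 1) + R + 1)) ≤ 2 * (R + 1) / E := by
      rw [div_le_div_iff₀ (mul_pos p1 p2) hEp, hE]
      have h1 : (Z - 1) * k ≤ Z * k + R + 1 - k := by nlinarith
      have h2 : Z * (k + 1) ≤ Z * (k + 1) + R + 1 := by linarith
      have h3 : ((Z - 1) * k) * (Z * (k + 1)) ≤ (Z * k + R + 1 - k) * (Z * (k + 1) + R + 1) :=
        mul_le_mul h1 h2 (by positivity) p1.le
      nlinarith
    have g2 : R * (R + 1) / E ≤ 1 := by
      rw [div_le_one hEp, hE]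
      have h1 : R * (R + 1) ≤ k * (k + 1) := by nlinarith
      have h2 : 1 ≤ 2 * Z * (Z - 1) := by nlinarith
      nlinarith [mul_nonneg (sub_nonneg.2 h2) (by positivity : (0:ℝ) ≤ k * (k + 1))]
    have g3 : 0 ≤ R * (R + 1) / E := by positivity
    have g4 : 0 ≤ (R + 1) / ((Z * k + R + 1 - k) * (Z * (k + 1) + R + 1)) := by positivity
    have e2 : 1 - (R + 1) * (R + 1 + 1) / E = 1 - R * (R + 1) / E - 2 * (R + 1) / E := by
      field_simp
      ring
    rw [e2]
    nlinarith [mul_nonneg g3 g4]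

lemma target_le {z K r : ℕ} (hz : 2 ≤ z) (hK : 1 ≤ K) (hr : r ≤ K) :
    (((z * K).choose K : ℕ) : ℝ) * (((z * (K + 1) + r).choose (K + 1) : ℕ) : ℝ) *
      (1 - 1 / (2 * z * (z - 1))) ≤
    (((z * K + r).choose K : ℕ) : ℝ) * (((z * (K + 1)).choose (K + 1) : ℕ) : ℝ) := by
  refine le_trans ?_ (target_aux hz hK r hr)
  apply mul_le_mul_of_nonneg_left _ (by positivity)
  have hz' : (2 : ℝ) ≤ z := by exact_mod_cast hz
  have hK' : (1 : ℝ) ≤ K := by exact_mod_cast hK
  have hr' : (r : ℝ) ≤ K := by exact_mod_cast hr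
  have hr0 : (0 : ℝ) ≤ r := by positivity
  have h1 : 0 < (z : ℝ) - 1 := by linarith
  have : (r : ℝ) * (r + 1) / (2 * z * (z - 1) * K * (K + 1)) ≤ 1 / (2 * z * (z - 1)) := by
    rw [div_le_div_iff₀ (by positivity) (by positivity), one_mul]
    have h2 : (r : ℝ) * (r + 1) ≤ K * (K + 1) := by nlinarith
    have := mul_le_mul_of_nonneg_right h2 (by positivity : (0 : ℝ) ≤ 2 * z * (z - 1))
    nlinarith
  linarith

/-! ### the central coefficients -/

/-- the quotient of consecutive central coefficients, up to the factor `m + 1` -/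
noncomputable def dl (m j : ℕ) : ℝ :=
  ∏ i ∈ range m, ((((m + 1) * j + 1 + i : ℕ) : ℝ) / ((m * j + 1 + i : ℕ) : ℝ))

lemma dl_pos (m j : ℕ) : 0 < dl m j := by
  unfold dl
  apply Finset.prod_pos
  intro i _
  positivity

lemma central_step (m j : ℕ) :
    ((((m + 1) * (j + 1)).choose (j + 1) : ℕ) : ℝ) =
      ((((m + 1) * j).choose j : ℕ) : ℝ) * ((m : ℝ) + 1) * dl m j := by
  have hP : ((((m + 1) * j + 1).ascFactorial m : ℕ) : ℝ) =
      ∏ i ∈ range m, (((m + 1) * j + 1 + i : ℕ) : ℝ) := by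
    rw [Nat.ascFactorial_eq_prod_range, Nat.cast_prod]
  have hQ : (((m * j + 1).ascFactorial m : ℕ) : ℝ) =
      ∏ i ∈ range m, ((m * j + 1 + i : ℕ) : ℝ) := by
    rw [Nat.ascFactorial_eq_prod_range, Nat.cast_prod]
  have hdl : dl m j = ((((m + 1) * j + 1).ascFactorial m : ℕ) : ℝ) /
      (((m * j + 1).ascFactorial m : ℕ) : ℝ) := by
    rw [hP, hQ, ← Finset.prod_div_distrib]
    rfl
  have h1 : ((m + 1) * j).choose j * j ! * (m * j)! = ((m + 1) * j)! := by
    have := Nat.choose_mul_factorial_mul_factorial (n := (m + 1) * j) (k := j)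
      (Nat.le_mul_of_pos_left _ (by omega))
    rwa [show (m + 1) * j - j = m * j by rw [Nat.add_mul, Nat.one_mul, Nat.add_sub_cancel]] at this
  have h2 : ((m + 1) * (j + 1)).choose (j + 1) * (j + 1)! * (m * (j + 1))! = ((m + 1) * (j + 1))! := by
    have := Nat.choose_mul_factorial_mul_factorial (n := (m + 1) * (j + 1)) (k := j + 1)
      (Nat.le_mul_of_pos_left _ (by omega))
    rwa [show (m + 1) * (j + 1) - (j + 1) = m * (j + 1) by
      rw [Nat.add_mul m 1, Nat.one_mul, Nat.add_sub_cancel]] at this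
  have h3 : ((m + 1) * (j + 1))! = ((m + 1) * j)! * ((m + 1) * (j + 1) *
      ((m + 1) * j + 1).ascFactorial m) := by
    have := Nat.factorial_mul_ascFactorial ((m + 1) * j) (m + 1)
    rw [Nat.ascFactorial_succ] at this
    rw [show (m + 1) * (j + 1) = (m + 1) * j + (m + 1) by ring, ← this]
    congr 2
    ring
  have h4 : (m * (j + 1))! = (m * j)! * (m * j + 1).ascFactorial m := by
    have := Nat.factorial_mul_ascFactorial (m * j) m
    rw [show m * (j + 1) = m * j + m by ring, ← this]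
  have h5 : (j + 1)! = (j + 1) * j ! := Nat.factorial_succ j
  have key : ((m + 1) * (j + 1)).choose (j + 1) * (m * j + 1).ascFactorial m =
      ((m + 1) * j).choose j * (m + 1) * ((m + 1) * j + 1).ascFactorial m := by
    rw [h3, h4, h5, ← h1] at h2
    have hpos : 0 < (j + 1) * j ! * (m * j)! := by positivity
    apply Nat.eq_of_mul_eq_mul_left hpos
    linarith [h2]
  have hQ0 : (0 : ℝ) < (((m * j + 1).ascFactorial m : ℕ) : ℝ) := by
    rw [hQ]
    apply Finset.prod_pos
    intro i _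
    positivity
  rw [hdl, mul_div_assoc', eq_div_iff hQ0.ne']
  exact_mod_cast key

lemma dl_mono (m : ℕ) {a b : ℕ} (h : a ≤ b) : dl m a ≤ dl m b := by
  unfold dl
  apply Finset.prod_le_prod
  · intro i _; positivity
  · intro i _
    rw [div_le_div_iff₀ (by positivity) (by positivity)]
    push_cast
    have h' : (a : ℝ) ≤ b := by exact_mod_cast h
    have hi : (0 : ℝ) ≤ i := by positivity
    have hm : (0 : ℝ) ≤ m := by positivity
    nlinarith [mul_nonneg (sub_nonneg.2 h') (by positivity : (0 : ℝ) ≤ 1 + (i : ℝ))]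

lemma tel1 (a : ℝ) (ha : 0 < a) (t : ℕ) : ∏ i ∈ range t, ((a + 1 + i) / (a + i)) = (a + t) / a := by
  induction t with
  | zero => simp [ha.ne']
  | succ t ih =>
    rw [Finset.prod_range_succ, ih]
    have : 0 < a + t := by positivity
    push_cast
    field_simp
    ring

lemma dl_one (m : ℕ) : dl m 1 = (2 * m + 1) / (m + 1) := by
  have h := tel1 ((m : ℝ) + 1) (by positivity) m
  unfold dl
  rw [show (2 * (m : ℝ) + 1) / (m + 1) = ((m : ℝ) + 1 + m) / (m + 1) by ring, ← h]
  apply Finset.prod_congr rfl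
  intro i _
  push_cast
  ring

lemma dl_two (m : ℕ) : dl m 2 = (3 * m + 1) * (3 * m + 2) / ((2 * m + 1) * (2 * m + 2)) := by
  have h1 := tel1 (2 * (m : ℝ) + 1) (by positivity) m
  have h2 := tel1 (2 * (m : ℝ) + 2) (by positivity) m
  have e : dl m 2 = (∏ i ∈ range m, ((2 * (m : ℝ) + 1 + 1 + i) / (2 * m + 1 + i))) *
      ∏ i ∈ range m, ((2 * (m : ℝ) + 2 + 1 + i) / (2 * m + 2 + i)) := by
    rw [← Finset.prod_mul_distrib]
    unfold dl
    apply Finset.prod_congr rfl
    intro i _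
    push_cast
    have : (0 : ℝ) < 2 * m + 1 + i := by positivity
    have : (0 : ℝ) < 2 * m + 2 + i := by positivity
    field_simp
    ring
  rw [e, h1, h2]
  field_simp
  ring

/-- central coefficient -/
noncomputable def DD (z j : ℕ) : ℝ := (((z * j).choose j : ℕ) : ℝ)

lemma DD_pos {z : ℕ} (hz : 1 ≤ z) (j : ℕ) : 0 < DD z j := by
  unfold DD
  exact_mod_cast Nat.choose_pos (Nat.le_mul_of_pos_left _ hz)

lemma DD_conv (m : ℕ) {a b : ℕ} (h : a ≤ b) :
    DD (m + 1) (a + 1) * DD (m + 1) b ≤ DD (m + 1) a * DD (m + 1) (b + 1) := by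
  have h1 := dl_mono m h
  have ea : DD (m + 1) (a + 1) = DD (m + 1) a * ((m : ℝ) + 1) * dl m a := central_step m a
  have eb : DD (m + 1) (b + 1) = DD (m + 1) b * ((m : ℝ) + 1) * dl m b := central_step m b
  rw [ea, eb]
  have ha := DD_pos (z := m + 1) (by omega) a
  have hb := DD_pos (z := m + 1) (by omega) b
  have := mul_le_mul_of_nonneg_left h1
    (by positivity : (0 : ℝ) ≤ DD (m + 1) a * DD (m + 1) b * ((m : ℝ) + 1))
  nlinarith

lemma DD_two (m : ℕ) : ∀ t w : ℕ, 2 + t ≤ w + 1 →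
    DD (m + 1) (2 + t) * DD (m + 1) w ≤ DD (m + 1) 2 * DD (m + 1) (w + t) := by
  intro t
  induction t with
  | zero => intro w _; simp
  | succ t ih =>
    intro w h
    refine (DD_conv m (a := 2 + t) (b := w) (by omega)).trans ?_
    have := ih (w + 1) (by omega)
    rwa [show w + 1 + t = w + (t + 1) by ring] at this

lemma DD_prod {z j w : ℕ} (hz : 2 ≤ z) (hj : 2 ≤ j) (hw : 2 ≤ w) :
    DD z j * DD z w * ((3 * z - 2) * (3 * z - 1)) ≤ 2 * (2 * z - 1) ^ 2 * (z * DD z (j + w - 1)) := by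
  obtain ⟨m, rfl⟩ : ∃ m, z = m + 1 := ⟨z - 1, by omega⟩
  have hmain : DD (m + 1) j * DD (m + 1) w ≤ DD (m + 1) 2 * DD (m + 1) (j + w - 2) := by
    rcases le_total j w with h | h
    · obtain ⟨t, rfl⟩ := Nat.exists_eq_add_of_le hj
      have := DD_two m t w (by omega)
      rwa [show w + t = 2 + t + w - 2 by omega] at this
    · obtain ⟨t, rfl⟩ := Nat.exists_eq_add_of_le hw
      have := DD_two m t j (by omega)
      rw [mul_comm, show j + (2 + t) - 2 = j + t by omega]
      exact this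
  obtain ⟨s, hs⟩ : ∃ s, j + w = s + 2 := ⟨j + w - 2, by omega⟩
  have hs2 : 2 ≤ s := by omega
  rw [hs] at hmain ⊢
  rw [show s + 2 - 2 = s by omega] at hmain
  rw [show s + 2 - 1 = s + 1 by omega]
  have e2 : DD (m + 1) 2 = ((m : ℝ) + 1) * (2 * m + 1) := by
    have h := central_step m 1
    rw [dl_one] at h
    unfold DD
    rw [show (2 : ℕ) = 1 + 1 from rfl, h]
    simp only [Nat.mul_one, Nat.choose_one_right]
    push_cast
    field_simp
  have es : DD (m + 1) (s + 1) = DD (m + 1) s * ((m : ℝ) + 1) * dl m s := central_step m s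
  have hds : (3 * m + 1) * (3 * m + 2) / ((2 * m + 1) * (2 * m + 2)) ≤ dl m s := by
    rw [← dl_two]; exact dl_mono m hs2
  have hm0 : (0 : ℝ) ≤ m := by positivity
  have hS := DD_pos (z := m + 1) (by omega) s
  rw [div_le_iff₀ (by positivity)] at hds
  rw [e2] at hmain
  rw [es]
  push_cast
  have t1 : DD (m + 1) j * DD (m + 1) w * ((3 * ((m : ℝ) + 1) - 2) * (3 * ((m : ℝ) + 1) - 1)) ≤
      ((m : ℝ) + 1) * (2 * m + 1) * DD (m + 1) s * ((3 * m + 1) * (3 * m + 2)) := by
    have := mul_le_mul_of_nonneg_right hmain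
      (by positivity : (0 : ℝ) ≤ (3 * (m : ℝ) + 1) * (3 * m + 2))
    nlinarith
  refine t1.trans ?_
  have t2 := mul_le_mul_of_nonneg_left hds
    (by positivity : (0 : ℝ) ≤ ((m : ℝ) + 1) * (2 * m + 1) * DD (m + 1) s)
  refine t2.trans (le_of_eq ?_)
  ring

/-- **The types with at least two elements on both sides** are smaller by a constant factor. -/
theorem top_le {z j w p q r : ℕ} (hz : 5 ≤ z) (hj : 2 ≤ j) (hw : 2 ≤ w)
    (h : p + q = z * (j + w) + r) (hr : r < j + w) :
    3549 * (p.choose j * q.choose w) ≤ 3240 * F1 (j + w) (p + q) := by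
  obtain ⟨K, hK⟩ : ∃ K, j + w = K + 1 := ⟨j + w - 1, by omega⟩
  have hH := hyp_le (z := z) (j := j) (w := w) (by omega) (by omega) (by omega) r p q h
  have hD := DD_prod (z := z) (by omega) hj hw
  have hT := target_le (z := z) (K := K) (r := r) (by omega) (by omega) (by omega)
  have hF : z * (z * K + r).choose K ≤ F1 (K + 1) (p + q) := by
    have h1 := choose_mul_choose_le (j := 1) (w := K) (u := z) (v := z * K + r) le_rfl (by omega)
      (by omega) (le_trans (Nat.le_mul_of_pos_left K (by omega : 0 < z)) (by omega))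
    rw [Nat.choose_one_right] at h1
    rw [show 1 + K = K + 1 by ring, show z + (z * K + r) = p + q by rw [h, hK]; ring] at h1
    exact h1
  rw [hK] at hH h ⊢
  rw [show j + w - 1 = K by omega] at hD
  rw [← h] at hT
  have hz' : (5 : ℝ) ≤ z := by exact_mod_cast hz
  have hH' : ((p.choose j : ℕ) : ℝ) * ((q.choose w : ℕ) : ℝ) *
      (((z * (K + 1)).choose (K + 1) : ℕ) : ℝ) ≤ DD z j * DD z w *
        (((p + q).choose (K + 1) : ℕ) : ℝ) := by
    unfold DD; exact_mod_cast hH
  have hF' : (z : ℝ) * (((z * K + r).choose K : ℕ) : ℝ) ≤ ((F1 (K + 1) (p + q) : ℕ) : ℝ) := by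
    exact_mod_cast hF
  have hN0 : (0 : ℝ) < (((z * (K + 1)).choose (K + 1) : ℕ) : ℝ) := by
    exact_mod_cast Nat.choose_pos (Nat.le_mul_of_pos_left _ (by omega))
  have hN : (0 : ℝ) ≤ (((p + q).choose (K + 1) : ℕ) : ℝ) := by positivity
  have hX : (0 : ℝ) ≤ ((p.choose j : ℕ) : ℝ) * ((q.choose w : ℕ) : ℝ) := by positivity
  have hDK : (0 : ℝ) ≤ DD z K := (DD_pos (by omega) K).le
  have hDD : DD z K = (((z * K).choose K : ℕ) : ℝ) := rfl
  rw [← hDD] at hT
  have hDj := DD_pos (z := z) (by omega) j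
  have hDw := DD_pos (z := z) (by omega) w
  set X := ((p.choose j : ℕ) : ℝ) * ((q.choose w : ℕ) : ℝ)
  set N0 := (((z * (K + 1)).choose (K + 1) : ℕ) : ℝ)
  set N := (((p + q).choose (K + 1) : ℕ) : ℝ)
  set A := (((z * K + r).choose K : ℕ) : ℝ)
  set Y := DD z j * DD z w with hY
  -- `Y ≤ (81/91) z D`
  have hc0 : 91 * (2 * (2 * (z : ℝ) - 1) ^ 2) ≤ 81 * ((3 * z - 2) * (3 * z - 1)) := by nlinarith
  have hY1 : 91 * Y ≤ 81 * (z * DD z K) := by
    have hpos : (0 : ℝ) < (3 * z - 2) * (3 * z - 1) := by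
      apply mul_pos <;> linarith
    have h1 : 91 * Y * ((3 * z - 2) * (3 * z - 1)) ≤
        81 * (z * DD z K) * ((3 * z - 2) * (3 * z - 1)) := by
      have h2 := mul_le_mul_of_nonneg_right hc0 (by positivity : (0 : ℝ) ≤ z * DD z K)
      nlinarith
    exact le_of_mul_le_mul_right h1 hpos
  have heps : (39 : ℝ) / 40 ≤ 1 - 1 / (2 * z * (z - 1)) := by
    have : 1 / (2 * (z : ℝ) * (z - 1)) ≤ 1 / 40 := by
      apply one_div_le_one_div_of_le (by norm_num)
      nlinarith
    linarith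
  have hT1 : DD z K * N * (39 / 40) ≤ A * N0 :=
    (mul_le_mul_of_nonneg_left heps (mul_nonneg hDK hN)).trans hT
  have hfin : 3549 * X * N0 ≤ 3240 * (z * A) * N0 := by
    have h1 : 91 * (X * N0) ≤ 81 * (z * DD z K) * N := by
      have h2 := mul_le_mul_of_nonneg_left hH' (by norm_num : (0 : ℝ) ≤ 91)
      have h3 := mul_le_mul_of_nonneg_right hY1 hN
      nlinarith
    have h4 := mul_le_mul_of_nonneg_left hT1 (by positivity : (0 : ℝ) ≤ 81 * z)
    nlinarith
  have hfin2 : 3549 * X ≤ 3240 * (z * A) := le_of_mul_le_mul_right hfin hN0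
  have hlast : 3549 * X ≤ 3240 * ((F1 (K + 1) (p + q) : ℕ) : ℝ) := by linarith
  have : (((3549 * (p.choose j * q.choose w) : ℕ)) : ℝ) ≤ ((3240 * F1 (K + 1) (p + q) : ℕ) : ℝ) := by
    push_cast
    exact hlast
  exact_mod_cast this

end Pool.Agent.Y424.SB
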