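import Mathlib
import Pool.Agent.Y424.SB.Top
import Pool.Agent.Y424.SB.Chain

set_option autoImplicit false

open Finset Nat

namespace Pool.Agent.Y424.SB

open Pool.Agent.Helper329.Sub

/-- comparison of the values for consecutive weights -/
lemma F1_step {t n : ℕ} (ht : 2 ≤ t) (htn : t ≤ n) (hn : 2 * t + (n + 1) / t ≤ n + 1) :
    F1 t n * (n + 1 - (n + 1) / t - t) ≤ F1 (t + 1) n * t := by
  obtain ⟨h1, h2, h3, h4, h5⟩ := m_facts (k := t) (n := n) ht htn
  set m := (n + 1) / t with hm
  have a := choose_mul_choose_le (j := 1) (w := t) (u := m) (v := n - m) le_rfl (by omega)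
    h1 (by omega)
  rw [Nat.choose_one_right, show 1 + t = t + 1 by ring, show m + (n - m) = n by omega] at a
  have b := Nat.choose_succ_right_eq (n - m) (t - 1)
  rw [show t - 1 + 1 = t by omega] at b
  have hF : F1 t n = m * (n - m).choose (t - 1) := rfl
  calc F1 t n * (n + 1 - m - t) = m * ((n - m).choose (t - 1) * (n - m - (t - 1))) := by
        rw [hF, show n - m - (t - 1) = n + 1 - m - t by omega]; ring
    _ = (m * (n - m).choose t) * t := by rw [← b]; ring
    _ ≤ F1 (t + 1) n * t := Nat.mul_le_mul_right _ a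

lemma F1_lt {t n : ℕ} (ht : 2 ≤ t) (hn : 5 * (t + 1) ≤ n) : F1 t n < F1 (t + 1) n := by
  obtain ⟨h1, h2, h3, h4, h5⟩ := m_facts (k := t) (n := n) ht (by omega)
  have hpos := F1_pos (k := t) (n := n) ht (by omega)
  have h6 : 2 * ((n + 1) / t) ≤ n + 1 := (Nat.mul_le_mul_right _ ht).trans h2
  have a := F1_step (t := t) (n := n) ht (by omega) (by omega)
  by_contra hcon
  have b : F1 (t + 1) n * t ≤ F1 t n * t := Nat.mul_le_mul_right _ (not_lt.1 hcon)
  have c := Nat.le_of_mul_le_mul_left (a.trans b) hpos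
  omega

lemma F1_ratio {t n : ℕ} (ht : 2 ≤ t) (hn : 5 * (t + 1) ≤ n) (hn2 : 20 ≤ n) :
    11 * F1 t n ≤ 3 * F1 (t + 1) n := by
  obtain ⟨h1, h2, h3, h4, h5⟩ := m_facts (k := t) (n := n) ht (by omega)
  have h6 : 2 * ((n + 1) / t) ≤ n + 1 := (Nat.mul_le_mul_right _ ht).trans h2
  have a := F1_step (t := t) (n := n) ht (by omega) (by omega)
  set m := (n + 1) / t with hm
  -- `14 t + 3 m ≤ 3 (n + 1)`
  have key : 14 * t + 3 * m ≤ 3 * (n + 1) := by
    have h7 : t * (14 * t + 3 * m) ≤ t * (3 * (n + 1)) := by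
      have e : t * (14 * t + 3 * m) = 14 * t * t + 3 * (t * m) := by ring
      rw [e]
      rcases Nat.eq_or_lt_of_le ht with h | h
      · subst h; omega
      · have h8 : 5 * t + 6 ≤ n + 1 := by omega
        obtain ⟨u, rfl⟩ : ∃ u, t = u + 3 := ⟨t - 3, by omega⟩
        have h9 : (u + 2) * (5 * (u + 3) + 6) ≤ (u + 2) * (n + 1) := Nat.mul_le_mul_left _ h8
        nlinarith
    exact Nat.le_of_mul_le_mul_left h7 (by omega)
  have h10 : 11 * t ≤ 3 * (n + 1 - m - t) := by omega
  have h11 : F1 t n * (11 * t) ≤ 3 * F1 (t + 1) n * t := by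
    calc F1 t n * (11 * t) ≤ F1 t n * (3 * (n + 1 - m - t)) := Nat.mul_le_mul_left _ h10
      _ = 3 * (F1 t n * (n + 1 - m - t)) := by ring
      _ ≤ 3 * (F1 (t + 1) n * t) := Nat.mul_le_mul_left _ a
      _ = 3 * F1 (t + 1) n * t := by ring
  have h12 : 11 * F1 t n * t ≤ 3 * F1 (t + 1) n * t := by
    calc 11 * F1 t n * t = F1 t n * (11 * t) := by ring
      _ ≤ _ := h11
  exact Nat.le_of_mul_le_mul_right h12 (by omega)

lemma F1_mono {s n : ℕ} (hs : 2 ≤ s) : ∀ d : ℕ, 5 * (s + d) ≤ n → F1 s n ≤ F1 (s + d) n := by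
  intro d
  induction d with
  | zero => intro _; exact le_rfl
  | succ d ih =>
    intro h
    exact (ih (by omega)).trans (F1_lt (t := s + d) (by omega) (by omega)).le

/-- the largest element of a chain -/
lemma exists_top {C : Finset (ℕ × ℕ)} (hC : StrictChain C) (hne : C.Nonempty) :
    ∃ c ∈ C, ∀ d ∈ C, d = c ∨ (d.1 < c.1 ∧ d.2 < c.2) := by
  obtain ⟨c, hc, hmax⟩ := Finset.exists_max_image C (fun c => c.1 + c.2) hne
  refine ⟨c, hc, fun d hd => ?_⟩
  rcases hC c hc d hd with h | h | h
  · exact Or.inl h.symm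
  · have := hmax d hd
    omega
  · exact Or.inr h

lemma strictChain_erase {C : Finset (ℕ × ℕ)} (hC : StrictChain C) (c : ℕ × ℕ) :
    StrictChain (C.erase c) := fun a ha b hb =>
  hC a (Finset.mem_of_mem_erase ha) b (Finset.mem_of_mem_erase hb)

lemma val_split {p q : ℕ} {C : Finset (ℕ × ℕ)} {c : ℕ × ℕ} (hc : c ∈ C) :
    val p q C = p.choose c.1 * q.choose c.2 + val p q (C.erase c) := by
  unfold val
  rw [Finset.add_sum_erase C (fun c => p.choose c.1 * q.choose c.2) hc]

/-- all chains with weights at most `s`, crude bound -/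
lemma val_crude {n p q : ℕ} (hpq : p + q = n) (hn : 20 ≤ n) : ∀ s : ℕ, 2 ≤ s → 5 * s ≤ n →
    ∀ C : Finset (ℕ × ℕ), StrictChain C → Inside p q s C → 112 * val p q C ≤ 121 * F1 s n := by
  intro s
  induction s using Nat.strong_induction_on with
  | _ s ih =>
    intro hs hsn C hC hin
    rcases C.eq_empty_or_nonempty with h | h
    · rw [h]; simp [val]
    obtain ⟨c, hc, htop⟩ := exists_top hC h
    obtain ⟨c1, c2, c3, c4, c5⟩ := hin c hc
    have hterm : p.choose c.1 * q.choose c.2 ≤ F1 (c.1 + c.2) n := by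
      rw [← hpq]; exact choose_mul_choose_le c1 c3 c2 c4
    have hmono : F1 (c.1 + c.2) n ≤ F1 s n := by
      obtain ⟨d, hd⟩ := Nat.exists_eq_add_of_le c5
      rw [hd]; exact F1_mono (by omega) d (by omega)
    have hrest : 112 * val p q (C.erase c) ≤ 9 * F1 (c.1 + c.2) n := by
      have hin' : Inside p q (c.1 + c.2 - 2) (C.erase c) := by
        intro d hd
        obtain ⟨d1, d2, d3, d4, d5⟩ := hin d (Finset.mem_of_mem_erase hd)
        rcases htop d (Finset.mem_of_mem_erase hd) with h | h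
        · exact absurd h (Finset.ne_of_mem_erase hd)
        · refine ⟨d1, d2, d3, d4, by omega⟩
      rcases Nat.lt_or_ge (c.1 + c.2 - 2) 2 with h2 | h2
      · have : C.erase c = ∅ := by
          rw [Finset.eq_empty_iff_forall_notMem]
          intro d hd
          obtain ⟨d1, d2, d3, d4, d5⟩ := hin' d hd
          omega
        rw [this]; simp [val]
      · have h3 := ih (c.1 + c.2 - 2) (by omega) h2 (by omega) _ (strictChain_erase hC c) hin'
        obtain ⟨u, hu⟩ : ∃ u, c.1 + c.2 = u + 2 := ⟨c.1 + c.2 - 2, by omega⟩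
        rw [hu] at h3 ⊢
        rw [show u + 2 - 2 = u by omega] at h3
        have r1 := F1_ratio (t := u) (n := n) (by omega) (by omega) hn
        have r2 := F1_ratio (t := u + 1) (n := n) (by omega) (by omega) hn
        have r3 : 121 * F1 u n ≤ 9 * F1 (u + 2) n := by
          have : u + 2 = u + 1 + 1 := by ring
          rw [this]
          omega
        exact h3.trans r3
    rw [val_split hc]
    omega

/-- **All chains**: the value is at most `F1 k n`; in the case of equality there is only one member,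
it has weight `k` and one of its entries is `1`. -/
theorem val_le {n k p q : ℕ} (hk : 2 ≤ k) (hn : 5 * k ≤ n) (hpq : p + q = n)
    {C : Finset (ℕ × ℕ)} (hC : StrictChain C) (hin : Inside p q k C) :
    val p q C ≤ F1 k n ∧ (val p q C = F1 k n → ∃ c : ℕ × ℕ, C = {c} ∧ (c.1 = 1 ∨ c.2 = 1) ∧
      c.1 + c.2 = k) := by
  have hFpos := F1_pos (k := k) (n := n) hk (by omega)
  rcases C.eq_empty_or_nonempty with h | h
  · rw [h]
    refine ⟨by simp [val], fun h0 => ?_⟩
    simp only [val, Finset.sum_empty] at h0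
    omega
  obtain ⟨c, hc, htop⟩ := exists_top hC h
  obtain ⟨c1, c2, c3, c4, c5⟩ := hin c hc
  have hterm : p.choose c.1 * q.choose c.2 ≤ F1 (c.1 + c.2) n := by
    rw [← hpq]; exact choose_mul_choose_le c1 c3 c2 c4
  have hmono : F1 (c.1 + c.2) n ≤ F1 k n := by
    obtain ⟨d, hd⟩ := Nat.exists_eq_add_of_le c5
    rw [hd]; exact F1_mono (by omega) d (by omega)
  have hstrict : c.1 + c.2 < k → F1 (c.1 + c.2) n < F1 k n := by
    intro hlt
    obtain ⟨d, hd⟩ := Nat.exists_eq_add_of_lt hlt
    rw [hd]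
    exact (F1_mono (s := c.1 + c.2) (n := n) (by omega) d (by omega)).trans_lt
      (F1_lt (by omega) (by omega))
  have hin' : Inside p q (c.1 + c.2 - 2) (C.erase c) := by
    intro d hd
    obtain ⟨d1, d2, d3, d4, d5⟩ := hin d (Finset.mem_of_mem_erase hd)
    rcases htop d (Finset.mem_of_mem_erase hd) with h | h
    · exact absurd h (Finset.ne_of_mem_erase hd)
    · exact ⟨d1, d2, d3, d4, by omega⟩
  by_cases hone : c.1 = 1 ∨ c.2 = 1
  · have hall : ∀ d ∈ C, d = c := by
      intro d hd
      obtain ⟨d1, d2, d3, d4, d5⟩ := hin d hd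
      rcases htop d hd with h | h
      · exact h
      · omega
    have : C.erase c = ∅ := by
      rw [Finset.eq_empty_iff_forall_notMem]
      intro d hd
      exact Finset.ne_of_mem_erase hd (hall d (Finset.mem_of_mem_erase hd))
    have hv : val p q C = p.choose c.1 * q.choose c.2 := by
      rw [val_split hc, this]; simp [val]
    rw [hv]
    refine ⟨hterm.trans hmono, fun h0 => ⟨c, ?_, hone, ?_⟩⟩
    · exact Finset.eq_singleton_iff_unique_mem.2 ⟨hc, hall⟩
    · by_contra hcon
      have hlt := hterm.trans_lt (hstrict (lt_of_le_of_ne c5 hcon))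
      omega
  · have hc1 : 2 ≤ c.1 := by omega
    have hc2 : 2 ≤ c.2 := by omega
    have hn20 : 20 ≤ n := by omega
    suffices hs : val p q C < F1 k n from ⟨hs.le, fun h0 => absurd h0 hs.ne⟩
    rcases Nat.lt_or_ge (c.1 + c.2) k with hlt | hge
    · have hin2 : Inside p q (k - 1) C := by
        intro d hd
        obtain ⟨d1, d2, d3, d4, d5⟩ := hin d hd
        rcases htop d hd with h | h
        · subst h; exact ⟨d1, d2, d3, d4, by omega⟩
        · exact ⟨d1, d2, d3, d4, by omega⟩
      have h1 := val_crude hpq hn20 (k - 1) (by omega) (by omega) C hC hin2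
      obtain ⟨u, hu⟩ : ∃ u, k = u + 1 := ⟨k - 1, by omega⟩
      rw [hu] at h1 hFpos ⊢
      rw [show u + 1 - 1 = u by omega] at h1
      have r1 := F1_ratio (t := u) (n := n) (by omega) (by omega) hn20
      omega
    · have hk' : c.1 + c.2 = k := le_antisymm c5 hge
      have h1 := val_crude hpq hn20 (c.1 + c.2 - 2) (by omega) (by omega) _
        (strictChain_erase hC c) hin'
      have h2 := top_le (z := n / k) (j := c.1) (w := c.2) (p := p) (q := q) (r := n % k)
        ((Nat.le_div_iff_mul_le (by omega)).2 hn) hc1 hc2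
        (by rw [hpq, hk', Nat.mul_comm]; exact (Nat.div_add_mod n k).symm)
        (by rw [hk']; exact Nat.mod_lt _ (by omega))
      rw [hpq, hk'] at h2
      rw [hk'] at h1
      obtain ⟨u, hu⟩ : ∃ u, k = u + 2 := ⟨k - 2, by omega⟩
      rw [hu] at h1 h2 hFpos ⊢
      rw [show u + 2 - 2 = u by omega] at h1
      have r1 := F1_ratio (t := u) (n := n) (by omega) (by omega) hn20
      have r2 := F1_ratio (t := u + 1) (n := n) (by omega) (by omega) hn20
      rw [show u + 1 + 1 = u + 2 by ring] at r2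
      rw [val_split hc]
      omega

end Pool.Agent.Y424.SB
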