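import Mathlib
import Pool.Agent.Y424.SB.Val
import Pool.Agent.Helper329.Sub.Tools

set_option autoImplicit false

open Finset

namespace Pool.Agent.Y424.SB

open Pool.Agent.Helper329.Sub

/-- The sizes of the unit-free sets all of whose elements are nonzero vertices of weight at
most `k`. -/
def sizesLe (n k : ℕ) : Set ℕ :=
  {c | ∃ S : Set (Fin n → ℝ), (∀ v ∈ S, IsVertex v ∧ v ≠ 0 ∧ weight v ≤ k) ∧ UnitFree S ∧
    S.ncard = c}

/-- `N(n,k)`: the largest size of a unit-free set of nonzero vertices of weight at most `k`. -/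
noncomputable def N (n k : ℕ) : ℕ := sSup (sizesLe n k)

/-- The vertices of weight `k` with exactly one coordinate equal to `1` in the set `P`. -/
def oneIn {n : ℕ} (P : Finset (Fin n)) (k : ℕ) : Set (Fin n → ℝ) :=
  {v | IsVertex v ∧ weight v = k ∧ ∃! i, i ∈ P ∧ v i = 1}

variable {n : ℕ}

lemma ind_ne_zero {A : Finset (Fin n)} (h : ind A ≠ 0) : A.Nonempty := by
  rw [Finset.nonempty_iff_ne_empty]
  rintro rfl
  apply h
  funext i
  simp [ind]

lemma ind_ne_zero' {A : Finset (Fin n)} (h : A.Nonempty) : ind A ≠ 0 := by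
  obtain ⟨i, hi⟩ := h
  intro h0
  have := congrFun h0 i
  simp [ind, hi] at this

lemma mem_prodFam_iff {P : Finset (Fin n)} {a b : ℕ} {A : Finset (Fin n)} :
    A ∈ prodFam P a b ↔ (A ∩ P).card = a ∧ (A \ P).card = b := by
  constructor
  · intro h
    obtain ⟨B, C, hB, hC, hBc, hCc, hd, rfl⟩ := mem_prodFam h
    have e1 : (B ∪ C) ∩ P = B := by
      ext i
      simp only [Finset.mem_inter, Finset.mem_union]
      constructor
      · rintro ⟨h | h, hP⟩
        · exact h
        · exact absurd hP (Finset.mem_compl.1 (hC h))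
      · intro h
        exact ⟨Or.inl h, hB h⟩
    have e2 : (B ∪ C) \ P = C := by
      ext i
      simp only [Finset.mem_sdiff, Finset.mem_union]
      constructor
      · rintro ⟨h | h, hP⟩
        · exact absurd (hB h) hP
        · exact h
      · intro h
        exact ⟨Or.inr h, Finset.mem_compl.1 (hC h)⟩
    rw [e1, e2]
    exact ⟨hBc, hCc⟩
  · rintro ⟨h1, h2⟩
    unfold prodFam
    rw [Finset.mem_image]
    refine ⟨(A ∩ P, A \ P), ?_, ?_⟩
    · simp only [Finset.mem_product, Finset.mem_powersetCard]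
      refine ⟨⟨Finset.inter_subset_right, h1⟩, ⟨?_, h2⟩⟩
      intro i hi
      exact Finset.mem_compl.2 (Finset.mem_sdiff.1 hi).2
    · ext i
      simp only [Finset.mem_union, Finset.mem_inter, Finset.mem_sdiff]
      tauto

lemma oneIn_eq {P : Finset (Fin n)} {k : ℕ} (hk : 1 ≤ k) :
    oneIn P k = ind '' (prodFam P 1 (k - 1) : Set (Finset (Fin n))) := by
  ext v
  constructor
  · rintro ⟨hv, hw, hu⟩
    obtain ⟨A, rfl⟩ := exists_ind hv
    refine ⟨A, ?_, rfl⟩
    rw [Finset.mem_coe, mem_prodFam_iff]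
    rw [weight_ind] at hw
    have h1 : (A ∩ P).card = 1 := by
      rw [Finset.card_eq_one]
      obtain ⟨i, ⟨hiP, hi⟩, huni⟩ := hu
      refine ⟨i, ?_⟩
      ext j
      simp only [Finset.mem_inter, Finset.mem_singleton]
      constructor
      · rintro ⟨hjA, hjP⟩
        exact huni j ⟨hjP, by simp [ind, hjA]⟩
      · rintro rfl
        refine ⟨?_, hiP⟩
        by_contra hcon
        simp [ind, hcon] at hi
    have h2 := Finset.card_inter_add_card_sdiff A P
    exact ⟨h1, by omega⟩
  · rintro ⟨A, hA, rfl⟩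
    rw [Finset.mem_coe, mem_prodFam_iff] at hA
    have h2 := Finset.card_inter_add_card_sdiff A P
    refine ⟨isVertex_ind A, by rw [weight_ind]; omega, ?_⟩
    obtain ⟨i, hi⟩ := Finset.card_eq_one.1 hA.1
    have hmem : i ∈ A ∩ P := by rw [hi]; exact Finset.mem_singleton_self i
    rw [Finset.mem_inter] at hmem
    refine ⟨i, ⟨hmem.2, by simp [ind, hmem.1]⟩, ?_⟩
    rintro j ⟨hjP, hj⟩
    have hjA : j ∈ A := by
      by_contra hcon
      simp [ind, hcon] at hj
    have : j ∈ A ∩ P := Finset.mem_inter.2 ⟨hjA, hjP⟩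
    rw [hi] at this
    exact Finset.mem_singleton.1 this

lemma unitFree_prodFam (P : Finset (Fin n)) {a b : ℕ} (ha : 1 ≤ a) (hb : 1 ≤ b) :
    UnitFree (ind '' (prodFam P a b : Set (Finset (Fin n)))) := by
  apply unitFree_of_orth (x := twoVal P (b : ℝ) (a : ℝ))
  · intro i
    unfold twoVal
    have hk1 : (a : ℝ) ≠ 0 := by exact_mod_cast (by omega : a ≠ 0)
    have hk2 : (b : ℝ) ≠ 0 := by exact_mod_cast (by omega : b ≠ 0)
    by_cases h : i ∈ P <;> simp [h, hk1, hk2]
  · rintro v ⟨A, hA, rfl⟩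
    obtain ⟨B, C, hB, hC, hBc, hCc, hd, rfl⟩ := mem_prodFam (Finset.mem_coe.1 hA)
    rw [sum_ind_mul, sum_twoVal _ _ hB hC hd, hBc, hCc]
    ring

/-- from vectors to families of sets -/
lemma exists_data {k : ℕ} {S : Set (Fin n → ℝ)} (hS : ∀ v ∈ S, IsVertex v ∧ v ≠ 0 ∧ weight v ≤ k)
    (hU : UnitFree S) : ∃ (F : Finset (Finset (Fin n))) (x : Fin n → ℝ),
      S = ind '' (F : Set (Finset (Fin n))) ∧ S.ncard = F.card ∧ (∀ i, x i ≠ 0) ∧
      ∀ A ∈ F, A.Nonempty ∧ A.card ≤ k ∧ ∑ i ∈ A, x i = 0 := by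
  obtain ⟨x, hx, hxS⟩ := exists_orth hU
  obtain ⟨F, hSF, hcard⟩ := exists_family (fun v hv => (hS v hv).1)
  refine ⟨F, x, hSF, hcard, hx, ?_⟩
  intro A hA
  have hmem : ind A ∈ S := by
    rw [hSF]; exact ⟨A, Finset.mem_coe.2 hA, rfl⟩
  refine ⟨ind_ne_zero (hS _ hmem).2.1, ?_, ?_⟩
  · rw [← weight_ind]; exact (hS _ hmem).2.2
  · rw [← sum_ind_mul]; exact hxS _ hmem

lemma zero_mem_sizesLe (n k : ℕ) : 0 ∈ sizesLe n k := by
  refine ⟨∅, by simp, ?_, by simp⟩
  intro i hi
  rw [Submodule.span_empty, Submodule.mem_bot] at hi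
  have := congrFun hi i
  simp at this

/-- `N(n,k)` is attained -/
lemma N_greatest (n k : ℕ) : IsGreatest (sizesLe n k) (N n k) := by
  have hb : BddAbove (sizesLe n k) := by
    refine ⟨Fintype.card (Finset (Fin n)), ?_⟩
    rintro c ⟨S, hS, hU, rfl⟩
    obtain ⟨F, x, _, hcard, _, _⟩ := exists_data hS hU
    rw [hcard]
    exact Finset.card_le_univ F
  exact ⟨Nat.sSup_mem ⟨0, zero_mem_sizesLe n k⟩ hb, fun c hc => le_csSup hb hc⟩

/-- the bound by chains for all `n` and `k` -/
lemma N_le_val (n k : ℕ) : ∃ (p q : ℕ) (C : Finset (ℕ × ℕ)), p + q = n ∧ StrictChain C ∧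
    Inside p q k C ∧ N n k ≤ val p q C := by
  by_contra hcon
  push Not at hcon
  have h0 : 0 < N n k := by
    have := hcon 0 n ∅ (by omega) (by intro c hc; simp at hc) (by intro c hc; simp at hc)
    simpa [val] using this
  obtain ⟨S, hS, hU, hc⟩ := (N_greatest n k).1
  obtain ⟨F, x, _, hcard, hx, hF⟩ := exists_data hS hU
  have h1 := (card_le_of_chain x hx k F hF (N n k - 1) (by
    intro p q hpq C hC hin
    rw [Fintype.card_fin] at hpq
    have := hcon p q C hpq hC hin
    omega)).1
  omega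

lemma sizesLe_le {k : ℕ} (hk : 2 ≤ k) (hn : 5 * k ≤ n) {c : ℕ} (hc : c ∈ sizesLe n k) :
    c ≤ F1 k n := by
  obtain ⟨S, hS, hU, rfl⟩ := hc
  obtain ⟨F, x, _, hcard, hx, hF⟩ := exists_data hS hU
  rw [hcard]
  refine (card_le_of_chain x hx k F hF (F1 k n) ?_).1
  intro p q hpq C hC hin
  rw [Fintype.card_fin] at hpq
  exact (val_le hk hn hpq hC hin).1

lemma sizes_subset {k : ℕ} (hk : 1 ≤ k) : sizes n k ⊆ sizesLe n k := by
  rintro c ⟨S, hS, hU, rfl⟩
  refine ⟨S, ?_, hU, rfl⟩
  intro v hv
  refine ⟨(hS v hv).1, ?_, (hS v hv).2.le⟩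
  obtain ⟨A, rfl⟩ := exists_ind (hS v hv).1
  apply ind_ne_zero'
  have := (hS _ hv).2
  rw [weight_ind] at this
  rw [← Finset.card_pos]
  omega

lemma F1_mem {k : ℕ} (hk : 2 ≤ k) (hkn : k ≤ n) : F1 k n ∈ sizes n k := by
  obtain ⟨h1, h2, h3, h4, h5⟩ := m_facts hk hkn
  have h := product_mem_sizes (n := n) (n₁ := (n + 1) / k) (n₂ := n - (n + 1) / k) (k₁ := 1)
    (k₂ := k - 1) (by omega) (le_refl 1) (by omega)
  rw [Nat.choose_one_right, show 1 + (k - 1) = k by omega] at h
  exact h

lemma N_eq {k : ℕ} (hk : 2 ≤ k) (hn : 5 * k ≤ n) : N n k = F1 k n := by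
  apply le_antisymm
  · exact sizesLe_le hk hn (N_greatest n k).1
  · exact (N_greatest n k).2 (sizes_subset (by omega) (F1_mem hk (by omega)))

/-- the two kinds of types cannot both be optimal -/
lemma not_both {k p q : ℕ} (hk : 3 ≤ k) (hn : 5 * k ≤ p + q) (hqp : q ≤ p)
    (h : p * q.choose (k - 1) = F1 k (p + q)) : False := by
  have hpos := F1_pos (k := k) (n := p + q) (by omega) (by omega)
  have hq : k - 1 ≤ q := by
    by_contra hcon
    rw [Nat.choose_eq_zero_of_lt (by omega), Nat.mul_zero] at h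
    omega
  have h1 := choose_mul_choose_le (j := 1) (w := k - 1) (u := p - 1) (v := q + 1) le_rfl (by omega)
    (by omega) (by omega)
  rw [Nat.choose_one_right, show 1 + (k - 1) = k by omega,
    show p - 1 + (q + 1) = p + q by omega, ← h] at h1
  have h2 := Nat.choose_mul_succ_eq q (k - 1)
  have hc : 0 < q.choose (k - 1) := Nat.choose_pos hq
  obtain ⟨a, ha⟩ : ∃ a, q + 1 = a + k := by
    rcases Nat.lt_or_ge (q + 1) k with h | h
    · omega
    · exact ⟨q + 1 - k, by omega⟩
  obtain ⟨b, hb⟩ : ∃ b, k = b + 3 := ⟨k - 3, by omega⟩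
  obtain ⟨u, hu⟩ : ∃ u, p = u + 1 := ⟨p - 1, by omega⟩
  have e1 : q + 1 - (k - 1) = a + 1 := by omega
  rw [e1] at h2
  rw [hu, show u + 1 - 1 = u by omega] at h1
  set c := q.choose (k - 1)
  set c' := (q + 1).choose (k - 1)
  -- `u c' ≤ (u + 1) c`, `c (q + 1) = c' (a + 1)`
  have h3 : u * (c * (q + 1)) ≤ (u + 1) * c * (a + 1) := by
    calc u * (c * (q + 1)) = (u * c') * (a + 1) := by rw [h2]; ring
      _ ≤ ((u + 1) * c) * (a + 1) := Nat.mul_le_mul_right _ h1
  have h4 : c * (u * (q + 1)) ≤ c * ((u + 1) * (a + 1)) := by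
    calc c * (u * (q + 1)) = u * (c * (q + 1)) := by ring
      _ ≤ _ := h3
      _ = _ := by ring
  have h5 := Nat.le_of_mul_le_mul_left h4 hc
  rw [ha, hb] at h5
  have h6 : a + 2 ≤ u + 1 := by omega
  nlinarith

/-- **The extremal sets.** -/
theorem extremal_iff {k : ℕ} (hk : 2 ≤ k) (hn : 5 * k ≤ n) (S : Set (Fin n → ℝ)) :
    ((∀ v ∈ S, IsVertex v ∧ v ≠ 0 ∧ weight v ≤ k) ∧ UnitFree S ∧ S.ncard = N n k) ↔
      ∃ P : Finset (Fin n), P.card * (n - P.card).choose (k - 1) = N n k ∧ S = oneIn P k := by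
  classical
  rw [N_eq hk hn]
  have hFpos := F1_pos (k := k) (n := n) hk (by omega)
  constructor
  · rintro ⟨hS, hU, hcS⟩
    obtain ⟨F, x, hSF, hcard, hx, hF⟩ := exists_data hS hU
    rw [hcard] at hcS
    have hpq : (univ.filter (fun i => 0 < x i)).card + (univ.filter (fun i => x i < 0)).card = n := by
      have := card_Pos_add_card_Neg x hx
      rw [Fintype.card_fin, Fintype.card_subtype, Fintype.card_subtype] at this
      exact this
    have hcompl : (univ.filter (fun i => 0 < x i))ᶜ = univ.filter (fun i => x i < 0) := by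
      ext i
      simp only [Finset.mem_compl, Finset.mem_filter, Finset.mem_univ, true_and, not_lt]
      constructor
      · intro h; exact lt_of_le_of_ne h (hx i)
      · intro h; exact h.le
    have heq := (card_le_of_chain x hx k F hF (F1 k n) (by
      intro p q hpq C hC hin
      rw [Fintype.card_fin] at hpq
      exact (val_le hk hn hpq hC hin).1)).2 hcS
    set P := univ.filter (fun i => 0 < x i) with hP
    set Q := univ.filter (fun i => x i < 0) with hQ
    have hAP : ∀ A : Finset (Fin n), A.filter (fun i => 0 < x i) = A ∩ P := by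
      intro A; ext i; simp [hP]
    have hAQ : ∀ A : Finset (Fin n), A.filter (fun i => x i < 0) = A ∩ Q := by
      intro A; ext i; simp [hQ]
    have htypes : ∀ A ∈ F, ((A ∩ P).card = 1 ∧ (A ∩ Q).card = k - 1 ∧
        P.card * Q.card.choose (k - 1) = F1 k n) ∨
        ((A ∩ Q).card = 1 ∧ (A ∩ P).card = k - 1 ∧ Q.card * P.card.choose (k - 1) = F1 k n) := by
      intro A hA
      obtain ⟨C, hC, hin, hval, hmem⟩ := heq A hA
      obtain ⟨c, hCc, hone, hck⟩ := (val_le hk hn hpq hC hin).2 hval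
      rw [hAP, hAQ, hCc, Finset.mem_singleton] at hmem
      rw [hCc] at hval
      simp only [val, Finset.sum_singleton] at hval
      rw [← hmem] at hval hone hck
      simp only at hval hone hck
      rcases hone with h | h
      · left
        have h2 : (A ∩ Q).card = k - 1 := by omega
        rw [h, h2, Nat.choose_one_right] at hval
        exact ⟨h, h2, hval⟩
      · right
        have h2 : (A ∩ P).card = k - 1 := by omega
        rw [h, h2, Nat.choose_one_right, Nat.mul_comm] at hval
        exact ⟨h, h2, hval⟩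
    have hQP : Qᶜ = P := by rw [← hcompl, compl_compl]
    have hsdP : ∀ A : Finset (Fin n), A \ P = A ∩ Q := by
      intro A; rw [← hcompl, Finset.sdiff_eq_inter_compl]
    have hsdQ : ∀ A : Finset (Fin n), A \ Q = A ∩ P := by
      intro A; rw [← hQP, Finset.sdiff_eq_inter_compl]
    -- all members are of one kind
    have hkinds : (∀ A ∈ F, (A ∩ P).card = 1 ∧ (A ∩ Q).card = k - 1 ∧
        P.card * Q.card.choose (k - 1) = F1 k n) ∨
        (∀ A ∈ F, (A ∩ Q).card = 1 ∧ (A ∩ P).card = k - 1 ∧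
          Q.card * P.card.choose (k - 1) = F1 k n) := by
      rcases Nat.eq_or_lt_of_le hk with h2 | h3
      · left
        intro A hA
        rcases htypes A hA with h | ⟨h1, h4, h5⟩
        · exact h
        · subst h2
          refine ⟨h4, h1, ?_⟩
          rw [show 2 - 1 = 1 from rfl, Nat.choose_one_right] at h5 ⊢
          rw [Nat.mul_comm]; exact h5
      · by_contra hcon
        push Not at hcon
        obtain ⟨⟨A, hA, hA'⟩, ⟨B, hB, hB'⟩⟩ := hcon
        have t1 : Q.card * P.card.choose (k - 1) = F1 k n := by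
          rcases htypes A hA with h | h
          · exact absurd h.2.2 (hA' h.1 h.2.1)
          · exact h.2.2
        have t2 : P.card * Q.card.choose (k - 1) = F1 k n := by
          rcases htypes B hB with h | h
          · exact h.2.2
          · exact absurd h.2.2 (hB' h.1 h.2.1)
        rcases le_total Q.card P.card with h | h
        · exact not_both (k := k) (p := P.card) (q := Q.card) (by omega) (by omega) h
            (by rw [hpq]; exact t2)
        · exact not_both (k := k) (p := Q.card) (q := P.card) (by omega) (by omega) h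
            (by rw [Nat.add_comm, hpq]; exact t1)
    have hFne : F.Nonempty := by rw [← Finset.card_pos]; omega
    obtain ⟨A0, hA0⟩ := hFne
    have finish : ∀ P Q : Finset (Fin n), Pᶜ = Q → (∀ A ∈ F, (A ∩ P).card = 1 ∧
        (A ∩ Q).card = k - 1 ∧ P.card * Q.card.choose (k - 1) = F1 k n) →
        ∃ P : Finset (Fin n), P.card * (n - P.card).choose (k - 1) = F1 k n ∧ S = oneIn P k := by
      intro P Q hPQ hall
      have hQc : Q.card = n - P.card := by
        rw [← hPQ, Finset.card_compl, Fintype.card_fin]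
      refine ⟨P, ?_, ?_⟩
      · rw [← hQc]; exact (hall A0 hA0).2.2
      · have hsub : F ⊆ prodFam P 1 (k - 1) := by
          intro A hA
          rw [mem_prodFam_iff, Finset.sdiff_eq_inter_compl, hPQ]
          exact ⟨(hall A hA).1, (hall A hA).2.1⟩
        have hFeq : F = prodFam P 1 (k - 1) := by
          apply Finset.eq_of_subset_of_card_le hsub
          rw [card_prodFam, Nat.choose_one_right, hPQ, (hall A0 hA0).2.2, hcS]
        rw [hSF, hFeq, oneIn_eq (by omega)]
    rcases hkinds with h | h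
    · exact finish P Q hcompl h
    · exact finish Q P hQP h
  · rintro ⟨P, hPc, rfl⟩
    refine ⟨?_, ?_, ?_⟩
    · rintro v ⟨hv, hw, _⟩
      refine ⟨hv, ?_, hw.le⟩
      obtain ⟨A, rfl⟩ := exists_ind hv
      apply ind_ne_zero'
      rw [weight_ind] at hw
      rw [← Finset.card_pos]
      omega
    · rw [oneIn_eq (by omega)]
      exact unitFree_prodFam P le_rfl (by omega)
    · rw [oneIn_eq (by omega), Set.ncard_image_of_injective _ ind_injective, Set.ncard_coe_finset,
        card_prodFam, Nat.choose_one_right, Finset.card_compl, Fintype.card_fin, hPc]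

end Pool.Agent.Y424.SB
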